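import Pool.Agent.L7h31.KN.Stm

set_option autoImplicit false

/-! Project KN (helper31), parts CNT, NRM, BEY, OPP. -/

namespace Pool.Agent.L7h70.KN

open scoped BigOperators Topology RealInnerProductSpace
open Pool.Agent.L7h31.KN

theorem s_CNT : S_CNT := by
  intro ι _ _ k A s hA
  have h1 : cyl A s = Fintype.piFinset (fun i => if i ∈ A then {s i} else Finset.univ) := by
    ext y
    simp only [cyl, Finset.mem_filter, Finset.mem_univ, true_and, Fintype.mem_piFinset]
    constructor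
    · intro h i
      split_ifs with hi
      · simpa using h i hi
      · simp
    · intro h i hi
      have := h i
      rw [if_pos hi] at this
      simpa using this
  have h2 : (cyl A s).card * 2 ^ A.card = 2 ^ Fintype.card ι := by
    rw [h1, Fintype.card_piFinset]
    have h3 : (2 : ℕ) ^ A.card = ∏ i : ι, if i ∈ A then 2 else 1 := by
      rw [Finset.prod_ite_mem, Finset.univ_inter, Finset.prod_const]
    have h4 : (2 : ℕ) ^ Fintype.card ι = ∏ _i : ι, 2 := by
      rw [Finset.prod_const, Finset.card_univ]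
    rw [h3, h4, ← Finset.prod_mul_distrib]
    refine Finset.prod_congr rfl fun i _ => ?_
    by_cases hi : i ∈ A
    · simp [hi]
    · simp [hi]
  rw [← h2]
  exact Nat.mul_le_mul_left _ (Nat.pow_le_pow_right (by norm_num) hA)

theorem s_NRM : S_NRM := by
  rintro d k P ⟨_, _, a, b, ha, rfl⟩
  refine ⟨fun i => ‖a i‖⁻¹ • a i, fun i => ‖a i‖⁻¹ * b i, fun i => ?_, ?_⟩
  · rw [norm_smul, norm_inv, norm_norm, inv_mul_cancel₀ (norm_ne_zero_iff.2 (ha i))]
  · ext x
    simp only [Set.mem_setOf_eq, real_inner_smul_left]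
    refine forall_congr' fun i => ?_
    have h := norm_pos_iff.2 (ha i)
    constructor
    · intro h1
      exact mul_le_mul_of_nonneg_left h1 (inv_pos.2 h).le
    · intro h1
      exact le_of_mul_le_mul_left h1 (inv_pos.2 h)

theorem s_BEY : S_BEY := by
  intro d k a b hd hb hi x
  by_contra hcon
  push Not at hcon
  haveI : Nonempty (Fin d) := ⟨⟨0, hd⟩⟩
  haveI : Nontrivial (E d) := inferInstance
  obtain ⟨p, hp, hpx⟩ : ∃ p ∈ interior {x : E d | ∀ i, ⟪a i, x⟫ ≤ b i}, p ≠ x := by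
    by_contra h
    push Not at h
    obtain ⟨p, hp⟩ := hi
    have hpx := h p hp
    have h1 : interior {x : E d | ∀ i, ⟪a i, x⟫ ≤ b i} = {x} := by
      ext y
      constructor
      · intro hy
        exact h y hy
      · intro hy
        rw [Set.mem_singleton_iff] at hy
        rw [hy, ← hpx]
        exact hp
    have h2 : IsOpen ({x} : Set (E d)) := by
      rw [← h1]; exact isOpen_interior
    exact not_isOpen_singleton x h2
  have hp' : ∀ i, ⟪a i, p⟫ ≤ b i := interior_subset hp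
  have hray : ∀ t : ℝ, 0 ≤ t → ∀ i, ⟪a i, p + t • (p - x)⟫ ≤ b i := by
    intro t ht i
    rw [inner_add_right, real_inner_smul_right, inner_sub_right]
    have h1 := hp' i
    have h2 := hcon i
    have h3 : t * (⟪a i, p⟫ - ⟪a i, x⟫) ≤ 0 :=
      mul_nonpos_of_nonneg_of_nonpos ht (by linarith)
    linarith
  obtain ⟨R, hR⟩ := hb.exists_norm_le
  have hn : 0 < ‖p - x‖ := norm_pos_iff.2 (sub_ne_zero.2 hpx)
  have hR0 : 0 ≤ R := le_trans (norm_nonneg _) (hR p hp')
  have ht : 0 ≤ (R + ‖p‖ + 1) / ‖p - x‖ := by positivity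
  have h1 := hR _ (hray _ ht)
  have h2 : ‖((R + ‖p‖ + 1) / ‖p - x‖) • (p - x)‖ = R + ‖p‖ + 1 := by
    rw [norm_smul, Real.norm_of_nonneg ht, div_mul_cancel₀ _ hn.ne']
  have h3 : ‖((R + ‖p‖ + 1) / ‖p - x‖) • (p - x)‖ ≤
      ‖p + ((R + ‖p‖ + 1) / ‖p - x‖) • (p - x)‖ + ‖p‖ := by
    have := norm_sub_le (p + ((R + ‖p‖ + 1) / ‖p - x‖) • (p - x)) p
    rwa [add_sub_cancel_left] at this
  linarith

theorem convex_poly {d k : ℕ} (a : Fin k → E d) (b : Fin k → ℝ) :
    Convex ℝ {x : E d | ∀ i, ⟪a i, x⟫ ≤ b i} := by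
  intro x hx y hy u v hu hv huv i
  rw [inner_add_right, real_inner_smul_right, real_inner_smul_right]
  have h1 := mul_le_mul_of_nonneg_left (hx i) hu
  have h2 := mul_le_mul_of_nonneg_left (hy i) hv
  have h3 : u * b i + v * b i = b i := by rw [← add_mul, huv, one_mul]
  linarith

theorem s_OPP (hS : S_SEP) (hT : S_TIG) : S_OPP := by
  intro d k a a' b b' hd ha ha' hi hi' hdis hv
  obtain ⟨v, hva, hv⟩ := hv
  obtain ⟨c, t, hc, hP, hQ⟩ := hS d _ _ (convex_poly a b) (convex_poly a' b') hi hi' hdis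
  have hvt : ∀ l, ⟪c, v l⟫ = t := fun l => le_antisymm (hP _ (hv l).1) (hQ _ (hv l).2)
  obtain ⟨i, h1, h2⟩ := hT d k a b c t v hd ha hc hi hP hva fun l => ⟨(hv l).1, hvt l⟩
  obtain ⟨i', h3, h4⟩ := hT d k a' b' (-c) (-t) v hd ha' (neg_ne_zero.2 hc) hi'
    (fun x hx => by rw [inner_neg_left]; exact neg_le_neg (hQ x hx)) hva
    fun l => ⟨(hv l).2, by rw [inner_neg_left, hvt l]⟩
  refine ⟨i, i', ?_, ?_⟩
  · rw [h3, h1, norm_neg, smul_neg]
  · rw [h4, h2, norm_neg, neg_div]

end Pool.Agent.L7h70.KN
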